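import Pool.Agent.H48.FXD.Defs

/-! Row DML of fxd_modules -/

set_option autoImplicit false

namespace Pool.Agent.H38.FXD

open Pool.Agent.H48.FXD
open Filter Set MeasureTheory
open scoped Topology

variable {G : Type*} [Group G] [TopologicalSpace G] [CompactSpace G]
  {E : Type*} [NormedAddCommGroup E] [NormedSpace ℝ E] [FiniteDimensional ℝ E]
  {y₀ : E} {V : Set E} {Ψ : G → E → E} {D : G → E → E →L[ℝ] E}

theorem pf_DML (h : LocAct y₀ V Ψ D) : (∀ g k v, D (g * k) y₀ v = D g y₀ (D k y₀ v)) ∧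
    (∀ v, D 1 y₀ v = v) ∧ ∃ C, ∀ g, ‖D g y₀‖ ≤ C := by
  have hd : ∀ g, HasFDerivAt (Ψ g) (D g y₀) y₀ := fun g => h.deriv g y₀ h.mem
  have hV : V ∈ 𝓝 y₀ := h.isOpen.mem_nhds h.mem
  refine ⟨?_, ?_, ?_⟩
  · intro g k v
    have hk : Tendsto (Ψ k) (𝓝 y₀) (𝓝 y₀) := by
      have := (hd k).continuousAt.tendsto
      rwa [h.fix] at this
    have hg : HasFDerivAt (Ψ g) (D g y₀) (Ψ k y₀) := by
      rw [h.fix]; exact hd g
    have hcomp : HasFDerivAt (fun y => Ψ g (Ψ k y)) ((D g y₀).comp (D k y₀)) y₀ :=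
      hg.comp y₀ (hd k)
    have heq : (Ψ (g * k)) =ᶠ[𝓝 y₀] (fun y => Ψ g (Ψ k y)) := by
      filter_upwards [hV, hk.eventually hV] with y hy hky
      exact h.mul g k y hy hky
    have h1 := hcomp.congr_of_eventuallyEq heq
    have h2 := (hd (g * k)).unique h1
    rw [h2]
    rfl
  · intro v
    have heq : (Ψ 1) =ᶠ[𝓝 y₀] (fun y => y) := by
      filter_upwards [hV] with y hy
      exact h.one y hy
    have h1 := (hasFDerivAt_id (𝕜 := ℝ) y₀).congr_of_eventuallyEq heq
    have h2 := (hd 1).unique h1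
    rw [h2]
    rfl
  · have hc : Continuous (fun g : G => D g y₀) := by
      have h1 : Continuous (fun g : G => (g, y₀)) := continuous_id.prodMk continuous_const
      exact h.contD.comp_continuous h1 (fun g => ⟨mem_univ _, h.mem⟩)
    obtain ⟨C, hC⟩ := (isCompact_univ : IsCompact (univ : Set G)).exists_bound_of_continuousOn
      hc.continuousOn
    exact ⟨C, fun g => hC g (mem_univ g)⟩

end Pool.Agent.H38.FXD
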