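import Pool.Agent.H48.FXD.Defs

/-! Row SML of fxd_modules -/

set_option autoImplicit false

namespace Pool.Agent.H38.FXD

open Pool.Agent.H48.FXD
open Filter Set MeasureTheory
open scoped Topology

variable {G : Type*} [Group G] [TopologicalSpace G] [CompactSpace G]
  {E : Type*} [NormedAddCommGroup E] [NormedSpace ℝ E] [FiniteDimensional ℝ E]
  {y₀ : E} {V : Set E} {Ψ : G → E → E} {D : G → E → E →L[ℝ] E}

theorem pf_SML (h : LocAct y₀ V Ψ D) {N : Set E} (hN : N ∈ 𝓝 y₀) :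
    ∀ᶠ y in 𝓝 y₀, ∀ g, Ψ g y ∈ N := by
  have key : ∀ᶠ y in 𝓝 y₀, ∀ g ∈ (univ : Set G), Ψ g y ∈ N := by
    apply (isCompact_univ : IsCompact (univ : Set G)).eventually_forall_of_forall_eventually
    intro g₀ _
    have hopen : IsOpen ((univ : Set G) ×ˢ V) := isOpen_univ.prod h.isOpen
    have hc : ContinuousAt (fun p : G × E => Ψ p.1 p.2) (g₀, y₀) :=
      h.cont.continuousAt (hopen.mem_nhds ⟨mem_univ _, h.mem⟩)
    have hsw : Tendsto (fun z : E × G => (z.2, z.1)) (𝓝 (y₀, g₀)) (𝓝 (g₀, y₀)) :=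
      (continuous_snd.prodMk continuous_fst).tendsto (y₀, g₀)
    have h2 : Tendsto (fun z : E × G => Ψ z.2 z.1) (𝓝 (y₀, g₀)) (𝓝 (Ψ g₀ y₀)) :=
      hc.tendsto.comp hsw
    rw [h.fix] at h2
    exact h2.eventually hN
  filter_upwards [key] with y hy g
  exact hy g (mem_univ g)

end Pool.Agent.H38.FXD
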